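import Pool.Agent.Zk29.Po.D

/-!
# Module SPD
-/

set_option autoImplicit false
set_option linter.all false
open Polynomial

namespace Pool.Agent.Zk80.Po

open Pool.Agent.Zk29.Po Pool.Agent.Zk29.Rat Pool.Agent.H792R2.CE Pool.Agent.H792R2.CE.C2x

theorem dat_one (P : ℂ[X]) (d : ℕ) (hd : 2 ≤ d) (hP : P.natDegree = d) : Dat P 1 d := by
  have hP0 : P ≠ 0 := by
    rintro rfl
    rw [natDegree_zero] at hP
    omega
  refine ⟨hP.le, by simp, Or.inl ?_, ?_, one_ne_zero, isCoprime_one_right⟩
  · rw [← hP]
    exact leadingCoeff_ne_zero.2 hP0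
  · rw [Pool.Agent.Zk29.Po.wr_one]
    intro h
    have := natDegree_eq_zero_of_derivative_eq_zero h
    omega

theorem spd : S_SPD := by
  intro P d hd hP x hx
  have hD := dat_one P d hd hP
  have hspec := (SP_spec hD hx).2
  obtain ⟨hx1, hx2, hx3⟩ := hx
  set D : ℂ[X] := P - C x * 1 with hDdef
  set S : ℂ[X] := SP P 1 d x with hS
  simp only [Pool.Agent.Zk29.Po.wr_one] at hspec hx3
  -- the cofactors
  have hE : ∀ w ∈ D.roots.toFinset, D = (X - C w) * (D /ₘ (X - C w)) := by
    intro w hw
    rw [Multiset.mem_toFinset, mem_roots hx2] at hw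
    exact (mul_divByMonic_eq_iff_isRoot.2 hw).symm
  set Sg : ℂ[X] := ∑ w ∈ D.roots.toFinset, C (1 / (derivative P).eval w ^ 2) * (D /ₘ (X - C w))
    with hSg
  have hid : S * D = 1 - derivative P * Sg := by
    have h1 : (S * D - (1 - derivative P * Sg)) * D = 0 := by
      apply Polynomial.funext
      intro z
      rw [eval_zero, eval_mul]
      by_cases hz : D.eval z = 0
      · rw [hz, mul_zero]
      · have h2 := hspec z hz
        have h3 : Sg.eval z = D.eval z * ∑ w ∈ D.roots.toFinset,
            eval w 1 ^ 4 / eval w (derivative P) ^ 2 / (z - w) := by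
          rw [hSg, eval_finsetSum, Finset.mul_sum]
          apply Finset.sum_congr rfl
          intro w hw
          have h4 := hE w hw
          have h5 : D.eval z = (z - w) * (D /ₘ (X - C w)).eval z := by
            conv_lhs => rw [h4]
            simp
          have h6 : z - w ≠ 0 := by
            intro h0
            rw [h0, zero_mul] at h5
            exact hz h5
          rw [eval_mul, eval_C, h5, eval_one]
          field_simp
        have h4 : (S * D - (1 - derivative P * Sg)).eval z = 0 := by
          simp only [eval_sub, eval_mul, eval_one]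
          rw [h3]
          rw [eval_one, one_pow, div_eq_iff hz] at h2
          linear_combination -h2
        rw [h4, zero_mul]
    have h2 := (mul_eq_zero.1 h1).resolve_right hx2
    exact sub_eq_zero.1 h2
  by_cases hS0 : S = 0
  · rw [hS0, natDegree_zero]
    exact Nat.zero_le _
  have h1 : (S * D).natDegree = S.natDegree + d := by
    rw [natDegree_mul hS0 hx2, hx1]
  have h2 : (derivative P).natDegree ≤ d - 1 := by
    rw [← hP]
    exact natDegree_derivative_le P
  have h3 : Sg.natDegree ≤ d - 1 := by
    rw [hSg]
    apply natDegree_sum_le_of_forall_le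
    intro w hw
    refine (natDegree_C_mul_le _ _).trans ?_
    rw [natDegree_divByMonic _ (monic_X_sub_C w), natDegree_X_sub_C, hx1]
  have h4 : (1 - derivative P * Sg).natDegree ≤ (d - 1) + (d - 1) := by
    refine (natDegree_sub_le _ _).trans (max_le ?_ ?_)
    · rw [natDegree_one]
      exact Nat.zero_le _
    · exact natDegree_mul_le.trans (add_le_add h2 h3)
  rw [← hid, h1] at h4
  omega

end Pool.Agent.Zk80.Po
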